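import Pool.Agent.T2H95.LR.MOM
import Pool.Agent.T2H95.LR.EXP
import Pool.Agent.T2H95.LR.PAR
import Pool.Agent.T2H95.LR.LAM
import Pool.Agent.T2H95.LR.HE
import Pool.Agent.T2H95.LR.CNT
import Pool.Agent.T2H95.LR.SQC
import Pool.Agent.T2H95.LR.TT
import Pool.Agent.T2H95.LR.MAT
import Pool.Agent.T2H95.LR.REF
import Pool.Agent.T2H95.LF.OPT

set_option autoImplicit false

open MeasureTheory Filter Topology Finset

namespace Pool.Agent.T2H53.RP

open Pool.Agent.T2H95.LR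

theorem MOM : S_MOM :=
  pMOM (pEXP (pLAM pHE) (pPAR pHE (pLAM pHE))) (pCNT (pSQC pREF) (pTT (pMAT pREF)))

/-- the size of the bound -/
noncomputable def sz (N : ℝ) : ℝ := Real.sqrt (Real.log N * Real.log (Real.log N))

/-- Markov's inequality for one weight. -/
theorem markov (μ : ℕ → Measure ℝ) (hμ : Adm μ) (g : ℕ → ℂ) (hg : ∀ n, ‖g n‖ ≤ 1)
    (k Q : ℕ) (V : ℝ) (hk : 1 ≤ k) (hQ : 1 ≤ Q) (hV : 0 < V) :
    Measure.infinitePi μ {x | V < ‖W x g Q‖} ≤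
      ENNReal.ofReal ((1 + k * Real.log Q) ^ (16 * k ^ 2) / V ^ (2 * k)) := by
  have := hμ.prob
  obtain ⟨hint, hle⟩ := MOM μ hμ g hg k Q hk hQ
  have h1 := mul_meas_ge_le_integral_of_nonneg (μ := Measure.infinitePi μ)
    (f := fun x => ‖W x g Q‖ ^ (2 * k)) (ae_of_all _ fun x => by positivity) hint (V ^ (2 * k))
  have hVk : 0 < V ^ (2 * k) := by positivity
  have h2 : (Measure.infinitePi μ).real {x | V ^ (2 * k) ≤ ‖W x g Q‖ ^ (2 * k)} ≤
      (1 + k * Real.log Q) ^ (16 * k ^ 2) / V ^ (2 * k) := by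
    rw [le_div_iff₀ hVk, mul_comm]
    exact h1.trans hle
  have h3 : {x : ℕ → ℝ | V < ‖W x g Q‖} ⊆ {x | V ^ (2 * k) ≤ ‖W x g Q‖ ^ (2 * k)} := by
    intro x hx
    simp only [Set.mem_ofPred_eq] at hx ⊢
    gcongr
  refine (measure_mono h3).trans ?_
  rw [← ofReal_measureReal (μ := Measure.infinitePi μ)]
  exact ENNReal.ofReal_le_ofReal h2

/-- Borel-Cantelli for polynomially many weights. -/
theorem bcFam (A a : ℕ) (hA : 1 ≤ A) : ∃ C' : ℝ, 0 ≤ C' ∧ ∀ (μ : ℕ → Measure ℝ), Adm μ →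
    ∀ (ι : ℕ → Type) (G : ∀ Q, Finset (ι Q)) (g : ∀ Q, ι Q → ℕ → ℂ), (∀ Q i n, ‖g Q i n‖ ≤ 1) →
    (∀ Q, 3 ≤ Q → (G Q).card ≤ A * Q ^ a) →
    ∀ᵐ x ∂(Measure.infinitePi μ), ∀ᶠ Q : ℕ in atTop, ∀ i ∈ G Q,
      ‖W x (g Q i) Q‖ ≤ Real.exp (C' * sz Q) := by
  obtain ⟨C', hC', hopt⟩ := Pool.Agent.T2H95.LF.pOPT A a (by exact_mod_cast hA)
  refine ⟨C', hC', ?_⟩
  intro μ hμ ι G g hg hcard
  have := hμ.prob
  obtain ⟨Q0, hQ0⟩ := Filter.eventually_atTop.1 hopt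
  set V : ℕ → ℝ := fun Q => Real.exp (C' * sz Q) with hV
  set Q1 : ℕ := max Q0 3 with hQ1
  set B : ℕ → Set (ℕ → ℝ) := fun Q => if Q1 ≤ Q then {x | ∃ i ∈ G Q, V Q < ‖W x (g Q i) Q‖} else ∅ with hB
  have hBle : ∀ Q : ℕ, Measure.infinitePi μ (B Q) ≤ ENNReal.ofReal (1 / (Q : ℝ) ^ 2) := by
    intro Q
    by_cases h : Q1 ≤ Q
    · have hQ03 : Q0 ≤ Q := le_trans (le_max_left _ _) h
      have hQ3 : 3 ≤ Q := le_trans (le_max_right _ _) h
      obtain ⟨k, hk, hle⟩ := hQ0 Q hQ03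
      simp only [hB, if_pos h]
      have h1 : {x : ℕ → ℝ | ∃ i ∈ G Q, V Q < ‖W x (g Q i) Q‖} ⊆
          ⋃ i ∈ G Q, {x | V Q < ‖W x (g Q i) Q‖} := by
        rintro x ⟨i, hi, hx⟩
        simp only [Set.mem_iUnion]
        exact ⟨i, hi, hx⟩
      refine (measure_mono h1).trans ?_
      refine (measure_biUnion_finset_le _ _).trans ?_
      refine (Finset.sum_le_sum fun i _ => markov μ hμ (g Q i) (hg Q i) k Q (V Q) hk (by omega)
        (Real.exp_pos _)).trans ?_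
      rw [Finset.sum_const, nsmul_eq_mul]
      have hlogQ : 0 ≤ Real.log Q := Real.log_nonneg (by exact_mod_cast (by omega : 1 ≤ Q))
      have h2 : ((G Q).card : ENNReal) ≤ ENNReal.ofReal ((A : ℝ) * (Q : ℝ) ^ a) := by
        rw [← ENNReal.ofReal_natCast]
        apply ENNReal.ofReal_le_ofReal
        exact_mod_cast hcard Q hQ3
      refine (mul_le_mul_left h2 _).trans ?_
      rw [← ENNReal.ofReal_mul (by positivity)]
      apply ENNReal.ofReal_le_ofReal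
      rw [← mul_div_assoc, div_le_iff₀ (pow_pos (Real.exp_pos _) _)]
      refine le_trans ?_ hle
      have hA1 : (1 : ℝ) ≤ A := by exact_mod_cast hA
      have h4 : (1 + k * Real.log Q) ≤ (A : ℝ) * (1 + k * Real.log Q) := by
        have : 0 ≤ 1 + k * Real.log Q := by positivity
        nlinarith
      gcongr
    · simp only [hB, if_neg h]
      simp
  have hsum : ∑' Q, Measure.infinitePi μ (B Q) ≠ ⊤ := by
    refine ne_top_of_le_ne_top ?_ (ENNReal.tsum_le_tsum hBle)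
    have hs : Summable fun Q : ℕ => 1 / (Q : ℝ) ^ 2 := Real.summable_one_div_nat_pow.2 (by norm_num)
    rw [← ENNReal.ofReal_tsum_of_nonneg (fun _ => by positivity) hs]
    exact ENNReal.ofReal_ne_top
  filter_upwards [ae_eventually_notMem hsum] with x hx
  filter_upwards [hx, Filter.eventually_ge_atTop Q1] with Q hxQ hQ i hi
  by_contra hcon
  push Not at hcon
  apply hxQ
  simp only [hB, if_pos hQ]
  exact ⟨i, hi, hcon⟩

end Pool.Agent.T2H53.RP
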