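import Mathlib

set_option autoImplicit false

open Finset ArithmeticFunction

namespace Pool.Agent.T2H53.RP

/-- `μ(n) ∏_{p | n} y_p` -/
noncomputable def am (y : ℕ → ℂ) : ArithmeticFunction ℂ :=
  (((ArithmeticFunction.moebius : ArithmeticFunction ℤ) : ArithmeticFunction ℂ)).pmul
    (ArithmeticFunction.prodPrimeFactors y)

theorem am_mult (y : ℕ → ℂ) : (am y).IsMultiplicative := by
  unfold am
  exact ArithmeticFunction.isMultiplicative_moebius.intCast.pmul
    (ArithmeticFunction.IsMultiplicative.prodPrimeFactors y)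

theorem am_apply (y : ℕ → ℂ) (n : ℕ) (hn : n ≠ 0) :
    am y n = (ArithmeticFunction.moebius n : ℂ) * ∏ p ∈ n.primeFactors, y p := by
  unfold am
  rw [ArithmeticFunction.pmul_apply, ArithmeticFunction.prodPrimeFactors_apply hn]
  rfl

/-- the local factors of the quotient -/
noncomputable def lf (y z : ℕ → ℂ) (p k : ℕ) : ℂ := (y p - z p) * y p ^ (k - 1)

/-- the quotient -/
noncomputable def qh (y z : ℕ → ℂ) : ArithmeticFunction ℂ :=
  ⟨fun n => if n = 0 then 0 else n.factorization.prod (lf y z), by simp⟩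

theorem qh_apply (y z : ℕ → ℂ) {n : ℕ} (hn : n ≠ 0) : qh y z n = n.factorization.prod (lf y z) := by
  change (if n = 0 then 0 else n.factorization.prod (lf y z)) = _
  rw [if_neg hn]

theorem qh_one (y z : ℕ → ℂ) : qh y z 1 = 1 := by
  rw [qh_apply y z one_ne_zero, Nat.factorization_one, Finsupp.prod_zero_index]

theorem qh_mult (y z : ℕ → ℂ) : (qh y z).IsMultiplicative := by
  rw [ArithmeticFunction.IsMultiplicative.iff_ne_zero]
  refine ⟨qh_one y z, ?_⟩
  intro m n hm hn hmn
  rw [qh_apply y z (mul_ne_zero hm hn), qh_apply y z hm, qh_apply y z hn, Nat.factorization_mul hm hn]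
  apply Finsupp.prod_add_index_of_disjoint
  rw [Nat.support_factorization, Nat.support_factorization]
  exact hmn.disjoint_primeFactors

theorem qh_pp (y z : ℕ → ℂ) {p k : ℕ} (hp : p.Prime) (hk : 1 ≤ k) :
    qh y z (p ^ k) = (y p - z p) * y p ^ (k - 1) := by
  rw [qh_apply y z (pow_ne_zero _ hp.ne_zero), hp.factorization_pow, Finsupp.prod]
  rw [Finsupp.support_single_ne_zero _ (by omega), Finset.prod_singleton, Finsupp.single_eq_same]
  rfl

theorem am_p (y : ℕ → ℂ) {p : ℕ} (hp : p.Prime) : am y p = -y p := by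
  rw [am_apply y p hp.ne_zero, hp.primeFactors, Finset.prod_singleton,
    ArithmeticFunction.moebius_apply_prime hp]
  push_cast
  ring

theorem am_pp (y : ℕ → ℂ) {p k : ℕ} (hp : p.Prime) (hk : 2 ≤ k) : am y (p ^ k) = 0 := by
  rw [am_apply y _ (pow_ne_zero _ hp.ne_zero), ArithmeticFunction.moebius_apply_prime_pow hp (by omega),
    if_neg (by omega)]
  simp

theorem conv (y z : ℕ → ℂ) : am z = am y * qh y z := by
  rw [ArithmeticFunction.IsMultiplicative.eq_iff_eq_on_prime_powers _ (am_mult z) _ ((am_mult y).mul (qh_mult y z))]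
  intro p k hp
  rw [ArithmeticFunction.mul_apply, Nat.sum_divisorsAntidiagonal (fun i j => am y i * qh y z j),
    Nat.sum_divisors_prime_pow hp]
  rcases Nat.eq_zero_or_pos k with h0 | h1
  · subst h0
    simp [(am_mult z).map_one, (am_mult y).map_one, qh_one]
  · have h2 : ∀ i ∈ Finset.range (k + 1), i ∉ Finset.range 2 → am y (p ^ i) * qh y z (p ^ k / p ^ i) = 0 := by
      intro i _ hi
      rw [Finset.mem_range, not_lt] at hi
      rw [am_pp y hp hi, zero_mul]
    rw [← Finset.sum_subset (s₁ := Finset.range 2) (by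
      intro i hi
      rw [Finset.mem_range] at hi ⊢
      omega) h2]
    rw [Finset.sum_range_succ, Finset.sum_range_one, pow_zero, pow_one, Nat.div_one, (am_mult y).map_one, am_p y hp]
    have h3 : p ^ k / p = p ^ (k - 1) := by
      obtain ⟨j, rfl⟩ : ∃ j, k = j + 1 := ⟨k - 1, by omega⟩
      rw [pow_succ, Nat.mul_div_cancel _ hp.pos, Nat.add_sub_cancel]
    rw [h3, qh_pp y z hp h1]
    rcases Nat.lt_or_ge k 2 with h4 | h4
    · have : k = 1 := by omega
      subst this
      rw [pow_one, am_p z hp]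
      simp [qh_one]
      ring
    · rw [am_pp z hp h4, qh_pp y z hp (by omega)]
      obtain ⟨j, rfl⟩ : ∃ j, k = j + 2 := ⟨k - 2, by omega⟩
      have e1 : j + 2 - 1 = j + 1 := by omega
      have e2 : j + 1 - 1 = j := by omega
      rw [e1, e2, pow_succ]
      ring

/-- the hyperbola-type rearrangement -/
theorem rearr (A B : ArithmeticFunction ℂ) (w : ℕ → ℂ) (N : ℕ) :
    ∑ n ∈ Icc 1 N, (A * B) n * w n = ∑ a ∈ Icc 1 N, B a * ∑ m ∈ Icc 1 (N / a), A m * w (m * a) := by
  have h1 : ∀ n ∈ Icc 1 N, (A * B) n * w n =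
      ∑ a ∈ Icc 1 N, ∑ m ∈ Icc 1 N, if m * a = n then B a * (A m * w (m * a)) else 0 := by
    intro n hn
    rw [mem_Icc] at hn
    rw [ArithmeticFunction.mul_apply, Finset.sum_mul, Finset.sum_comm, ← Finset.sum_product',
      ← Finset.sum_filter]
    apply Finset.sum_congr
    · ext ⟨i, j⟩
      simp only [Nat.mem_divisorsAntidiagonal, mem_filter, mem_product, mem_Icc]
      constructor
      · rintro ⟨h, hne⟩
        have hi : 0 < i := Nat.pos_of_ne_zero (by rintro rfl; simp at h; omega)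
        have hj : 0 < j := Nat.pos_of_ne_zero (by rintro rfl; simp at h; omega)
        have hi2 : i ≤ n := Nat.le_of_dvd (by omega) ⟨j, h.symm⟩
        have hj2 : j ≤ n := Nat.le_of_dvd (by omega) ⟨i, by rw [← h]; ring⟩
        exact ⟨⟨⟨hi, by omega⟩, hj, by omega⟩, h⟩
      · rintro ⟨_, h⟩
        exact ⟨h, by omega⟩
    · rintro ⟨i, j⟩ hij
      rw [Finset.mem_filter] at hij
      have : i * j = n := hij.2
      simp only
      rw [this]
      ring
  rw [Finset.sum_congr rfl h1, Finset.sum_comm]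
  apply Finset.sum_congr rfl
  intro a ha
  rw [mem_Icc] at ha
  rw [Finset.sum_comm, Finset.mul_sum]
  have h2 : ∀ m ∈ Icc 1 N, (∑ n ∈ Icc 1 N, if m * a = n then B a * (A m * w (m * a)) else 0) =
      if m * a ≤ N then B a * (A m * w (m * a)) else 0 := by
    intro m hm
    rw [mem_Icc] at hm
    rw [Finset.sum_ite_eq]
    have : m * a ∈ Icc 1 N ↔ m * a ≤ N := by
      rw [mem_Icc]
      exact ⟨fun h => h.2, fun h => ⟨Nat.mul_pos (by omega) (by omega), h⟩⟩
    simp only [this]
  rw [Finset.sum_congr rfl h2, ← Finset.sum_filter]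
  apply Finset.sum_congr _ (fun _ _ => rfl)
  ext m
  simp only [mem_filter, mem_Icc]
  rw [Nat.le_div_iff_mul_le (by omega)]
  constructor
  · rintro ⟨⟨h3, _⟩, h4⟩
    exact ⟨h3, h4⟩
  · rintro ⟨h3, h4⟩
    refine ⟨⟨h3, ?_⟩, h4⟩
    calc m ≤ m * a := Nat.le_mul_of_pos_right _ (by omega)
      _ ≤ N := h4

end Pool.Agent.T2H53.RP
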