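import Pool.Agent.T2H53.RP.Robust

set_option autoImplicit false

open MeasureTheory Filter Topology Finset

namespace Pool.Agent.T2H53.RP

open Pool.Agent.T2H95.LR

/-- `exp (2 π i t)` -/
noncomputable def ee (t : ℝ) : ℂ := Complex.exp (((2 * Real.pi * t : ℝ) : ℂ) * Complex.I)

theorem ee_add (s t : ℝ) : ee (s + t) = ee s * ee t := by
  unfold ee
  rw [← Complex.exp_add]
  congr 1
  push_cast
  ring

theorem norm_ee (t : ℝ) : ‖ee t‖ = 1 := by
  unfold ee
  exact Complex.norm_exp_ofReal_mul_I _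

theorem ee_int (m : ℤ) : ee m = 1 := by
  unfold ee
  rw [Complex.exp_eq_one_iff]
  exact ⟨m, by push_cast; ring⟩

theorem ee_eq_one {t : ℝ} (h : ee t = 1) : ∃ m : ℤ, t = m := by
  unfold ee at h
  rw [Complex.exp_eq_one_iff] at h
  obtain ⟨m, hm⟩ := h
  refine ⟨m, ?_⟩
  have hpi : (Real.pi : ℂ) ≠ 0 := by exact_mod_cast Real.pi_ne_zero
  have h1 : ((2 * Real.pi * t : ℝ) : ℂ) * Complex.I = (2 * Real.pi * (m : ℝ) : ℝ) * Complex.I := by
    rw [hm]
    push_cast
    ring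
  have h2 := mul_right_cancel₀ Complex.I_ne_zero h1
  have h3 : 2 * Real.pi * t = 2 * Real.pi * (m : ℝ) := by exact_mod_cast h2
  exact mul_left_cancel₀ (by positivity) h3

theorem ee_pow (t : ℝ) (b : ℕ) : ee t ^ b = ee (b * t) := by
  unfold ee
  rw [← Complex.exp_nat_mul]
  congr 1
  push_cast
  ring

/-- detecting a residue class -/
theorem detect (q : ℕ) (hq : 1 ≤ q) (a n : ℕ) :
    (if n ≡ a [MOD q] then (1 : ℂ) else 0) = (1 / (q : ℂ)) * ∑ b ∈ range q, ee (b * (((n : ℝ) - a) / q)) := by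
  have hq0 : (q : ℝ) ≠ 0 := by exact_mod_cast (by omega : q ≠ 0)
  have hqc : (q : ℂ) ≠ 0 := by exact_mod_cast (by omega : q ≠ 0)
  simp_rw [← ee_pow]
  set ζ := ee (((n : ℝ) - a) / q) with hζ
  by_cases h : n ≡ a [MOD q]
  · rw [if_pos h]
    have h1 : ζ = 1 := by
      have h2 : (q : ℤ) ∣ (n : ℤ) - a := by
        have := (Nat.modEq_iff_dvd.1 h)
        have h3 := dvd_neg.2 this
        rwa [neg_sub] at h3
      obtain ⟨m, hm⟩ := h2
      have h3 : ((n : ℝ) - a) / q = (m : ℝ) := by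
        have h4 : ((n : ℝ) - a) = q * m := by exact_mod_cast hm
        rw [h4]
        field_simp
      rw [hζ, h3]
      exact ee_int m
    rw [h1]
    simp only [one_pow, sum_const, card_range, nsmul_eq_mul, mul_one]
    field_simp
  · rw [if_neg h]
    have h1 : ζ ≠ 1 := by
      intro h2
      obtain ⟨m, hm⟩ := ee_eq_one h2
      apply h
      rw [Nat.modEq_iff_dvd]
      have h4 : ((n : ℝ) - a) = q * m := by
        rw [← hm]
        field_simp
      have h5 : ((n : ℤ) - a) = q * m := by exact_mod_cast h4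
      exact ⟨-m, by linarith⟩
    rw [geom_sum_eq h1]
    have h2 : ζ ^ q = 1 := by
      rw [hζ, ee_pow]
      have h3 : (q : ℝ) * (((n : ℝ) - a) / q) = (((n : ℤ) - a : ℤ) : ℝ) := by
        push_cast
        field_simp
      rw [h3]
      exact ee_int _
    rw [h2]
    simp

theorem ph_poly (P : Polynomial ℝ) {d : ℕ} (hP : P.natDegree ≤ d) (n : ℕ) :
    ph (fun j : Fin (d + 1) => P.coeff j) n = ee (P.eval (n : ℝ)) := by
  unfold ph ee
  rw [Polynomial.eval_eq_sum_range' (by omega : P.natDegree < d + 1), Finset.sum_range]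

/-- the shifted polynomials -/
theorem shift (P : Polynomial ℝ) {d : ℕ} (hd : 1 ≤ d) (hP : P.natDegree ≤ d) (q a : ℕ) (b : ℕ) :
    ∃ R : Polynomial ℝ, R.natDegree ≤ d ∧
      ∀ n : ℕ, ee (P.eval (n : ℝ)) * ee (b * (((n : ℝ) - a) / q)) = ee (R.eval (n : ℝ)) := by
  refine ⟨P + Polynomial.C ((b : ℝ) / q) * Polynomial.X - Polynomial.C ((b : ℝ) / q * a), ?_, ?_⟩
  · refine (Polynomial.natDegree_sub_le _ _).trans (max_le ?_ ?_)
    · refine (Polynomial.natDegree_add_le _ _).trans (max_le hP ?_)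
      exact (Polynomial.natDegree_C_mul_le _ _).trans (Polynomial.natDegree_X_le.trans hd)
    · rw [Polynomial.natDegree_C]
      omega
  · intro n
    rw [← ee_add]
    congr 1
    simp only [Polynomial.eval_sub, Polynomial.eval_add, Polynomial.eval_mul, Polynomial.eval_C,
      Polynomial.eval_X]
    ring

/-- The sums over residue classes. -/
theorem ap_le (f : ℕ → ℂ) (d N : ℕ) (hd : 1 ≤ d) (B : ℝ)
    (h : ∀ c : Fin (d + 1) → ℝ, ‖TF f (ph c) N‖ ≤ B) (q a : ℕ) (hq : 1 ≤ q) (P : Polynomial ℝ)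
    (hP : P.natDegree ≤ d) :
    ‖∑ n ∈ (Icc 1 N).filter (fun n => n ≡ a [MOD q]),
      (ArithmeticFunction.moebius n : ℂ) * (∏ p ∈ n.primeFactors, f p) * ee (P.eval (n : ℝ))‖ ≤ B := by
  have hq0 : (0 : ℝ) < q := by exact_mod_cast hq
  choose R hR1 hR2 using fun b : ℕ => shift P hd hP q a b
  generalize hv : (fun n : ℕ => (ArithmeticFunction.moebius n : ℂ) * (∏ p ∈ n.primeFactors, f p)) = v
  have hv' : ∀ n : ℕ, (ArithmeticFunction.moebius n : ℂ) * (∏ p ∈ n.primeFactors, f p) = v n :=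
    fun n => congrFun hv n
  have hT : ∀ b : ℕ, ‖∑ n ∈ Icc 1 N, v n * ee ((R b).eval (n : ℝ))‖ ≤ B := by
    intro b
    have h5 := h (fun j : Fin (d + 1) => (R b).coeff j)
    have h6 : TF f (ph (fun j : Fin (d + 1) => (R b).coeff j)) N =
        ∑ n ∈ Icc 1 N, v n * ee ((R b).eval (n : ℝ)) := by
      unfold TF
      apply Finset.sum_congr rfl
      intro n _
      rw [ph_poly _ (hR1 b) n, hv']
    rwa [h6] at h5
  simp_rw [hv']
  have h1 : ∑ n ∈ (Icc 1 N).filter (fun n => n ≡ a [MOD q]), v n * ee (P.eval (n : ℝ)) =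
      (1 / (q : ℂ)) * ∑ b ∈ range q, ∑ n ∈ Icc 1 N, v n * ee ((R b).eval (n : ℝ)) := by
    rw [Finset.sum_comm, Finset.mul_sum, Finset.sum_filter]
    apply Finset.sum_congr rfl
    intro n _
    have h3 : (if n ≡ a [MOD q] then v n * ee (P.eval (n : ℝ)) else 0) =
        v n * ee (P.eval (n : ℝ)) * (if n ≡ a [MOD q] then (1 : ℂ) else 0) := by
      split_ifs <;> simp
    rw [h3, detect q hq a n, mul_left_comm, Finset.mul_sum]
    congr 1
    apply Finset.sum_congr rfl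
    intro b _
    rw [mul_assoc, hR2]
  rw [h1, norm_mul, norm_div, norm_one, Complex.norm_natCast]
  calc 1 / (q : ℝ) * ‖∑ b ∈ range q, ∑ n ∈ Icc 1 N, v n * ee ((R b).eval (n : ℝ))‖
      ≤ 1 / (q : ℝ) * ∑ b ∈ range q, B := by
        apply mul_le_mul_of_nonneg_left _ (by positivity)
        exact (norm_sum_le _ _).trans (Finset.sum_le_sum fun b _ => hT b)
    _ = B := by
      rw [Finset.sum_const, card_range, nsmul_eq_mul]
      field_simp

theorem final (ν : ℕ → Measure ℝ) (h1 : ∀ p, IsProbabilityMeasure (ν p)) (h2 : ∀ p, ∀ᵐ t ∂(ν p), |t| ≤ 1)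
    (h3 : ∀ p, (ν p).map (fun t => -t) = ν p) :
    ∀ᵐ x ∂(Measure.infinitePi ν), ∀ d : ℕ, ∃ C : ℝ, ∀ (f : ℕ → ℂ) (N q a : ℕ) (P : Polynomial ℝ),
      3 ≤ N → 1 ≤ q → P.natDegree ≤ d →
      ‖∑ n ∈ (Icc 1 N).filter (fun n => n ≡ a [MOD q]),
        (ArithmeticFunction.moebius n : ℂ) * (∏ p ∈ n.primeFactors, f p) *
          Complex.exp (((2 * Real.pi * P.eval (n : ℝ) : ℝ) : ℂ) * Complex.I)‖ ≤
        Real.sqrt N * Real.exp (C * Real.sqrt (Real.log N * Real.log (Real.log N)) +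
          4 * ∑ p ∈ (Icc 1 N).filter Nat.Prime, ‖f p - (x p : ℂ)‖ / Real.sqrt p) := by
  have hadm : Adm ν := ⟨h1, fun p => (h2 p).mono fun t ht => by linarith, h3⟩
  have hb : ∀ᵐ x ∂(Measure.infinitePi ν), ∀ p, |x p| ≤ 1 := by
    rw [ae_all_iff]
    intro p
    have hmp := measurePreserving_eval_infinitePi ν p
    exact hmp.quasiMeasurePreserving.ae (h2 p)
  filter_upwards [main ν hadm, hb] with x hx hx1
  intro d
  obtain ⟨C, hC, hmain⟩ := hx.2 (d + 1)
  refine ⟨C, ?_⟩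
  intro f N q a P hN hq hP
  have hset : (N + 1).primesBelow = (Icc 1 N).filter Nat.Prime := by
    ext p
    rw [Nat.mem_primesBelow, mem_filter, mem_Icc]
    constructor
    · rintro ⟨h4, h5⟩
      exact ⟨⟨h5.one_lt.le, by omega⟩, h5⟩
    · rintro ⟨⟨_, h4⟩, h5⟩
      exact ⟨by omega, h5⟩
  have key := ap_le f (d + 1) N (by omega)
    (Real.sqrt N * Real.exp (C * sz N) *
      Real.exp (∑ p ∈ (N + 1).primesBelow, 4 * (‖(x p : ℂ) - f p‖ / Real.sqrt p)))
    (fun c => TF_le x hx1 f c N _ (Real.exp_pos _).le (fun M c hM => hmain N M c hN hM)) q a hq P (by omega)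
  have hrhs : Real.sqrt N * Real.exp (C * sz N) *
      Real.exp (∑ p ∈ (N + 1).primesBelow, 4 * (‖(x p : ℂ) - f p‖ / Real.sqrt p)) =
      Real.sqrt N * Real.exp (C * Real.sqrt (Real.log N * Real.log (Real.log N)) +
          4 * ∑ p ∈ (Icc 1 N).filter Nat.Prime, ‖f p - (x p : ℂ)‖ / Real.sqrt p) := by
    rw [mul_assoc, ← Real.exp_add, hset, ← Finset.mul_sum]
    congr 3
    congr 1
    apply Finset.sum_congr rfl
    intro p _
    rw [norm_sub_rev]
  rw [hrhs] at key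
  exact key

end Pool.Agent.T2H53.RP
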