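import Pool.Agent.T2H53.RP.Phase

set_option autoImplicit false

open MeasureTheory Filter Topology Finset

namespace Pool.Agent.T2H53.RP

open Pool.Agent.T2H95.LR

theorem one_lt_log3 : 1 < Real.log 3 := by
  rw [Real.lt_log_iff_exp_lt (by norm_num)]
  have := Real.exp_one_lt_d9
  linarith

theorem sz3_pos : 0 < sz 3 := by
  unfold sz
  apply Real.sqrt_pos.2
  have h1 := one_lt_log3
  have h2 : 0 < Real.log (Real.log 3) := Real.log_pos h1
  positivity

theorem sz_mono {M N : ℝ} (hM : 3 ≤ M) (h : M ≤ N) : sz M ≤ sz N := by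
  unfold sz
  apply Real.sqrt_le_sqrt
  have h1 := one_lt_log3
  have h2 : Real.log 3 ≤ Real.log M := Real.log_le_log (by norm_num) hM
  have h3 : Real.log M ≤ Real.log N := Real.log_le_log (by linarith) h
  have h4 : Real.log (Real.log M) ≤ Real.log (Real.log N) := Real.log_le_log (by linarith) h3
  have h5 : 0 ≤ Real.log (Real.log M) := Real.log_nonneg (by linarith)
  exact mul_le_mul h3 h4 h5 (by linarith)

/-- a constant is absorbed -/
theorem absorb {K : ℝ} (hK : 1 ≤ K) {N : ℝ} (hN : 3 ≤ N) : K ≤ Real.exp (Real.log K / sz 3 * sz N) := by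
  have h1 := sz3_pos
  have h2 := sz_mono le_rfl hN
  have h3 : 0 ≤ Real.log K := Real.log_nonneg hK
  calc K = Real.exp (Real.log K) := (Real.exp_log (by linarith)).symm
    _ ≤ _ := by
      apply Real.exp_le_exp.2
      calc Real.log K = Real.log K / sz 3 * sz 3 := by field_simp
        _ ≤ Real.log K / sz 3 * sz N := by gcongr

theorem T_triv (x : ℕ → ℝ) (hx : ∀ p, |x p| ≤ 2) {d : ℕ} (c : Fin (d + 1) → ℝ) (M : ℕ) :
    ‖T x c M‖ ≤ (M : ℝ) ^ 2 := by
  unfold T
  calc ‖∑ n ∈ Icc 1 M, (ArithmeticFunction.moebius n : ℂ) * (rm x n : ℂ) * ph c n‖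
      ≤ ∑ n ∈ Icc 1 M, ‖(ArithmeticFunction.moebius n : ℂ) * (rm x n : ℂ) * ph c n‖ := norm_sum_le _ _
    _ ≤ ∑ n ∈ Icc 1 M, (M : ℝ) := by
      apply Finset.sum_le_sum
      intro n hn
      rw [mem_Icc] at hn
      rw [norm_mul, norm_ph, mul_one]
      refine (mu_rm_le x hx hn.1).trans ?_
      exact_mod_cast hn.2
    _ = (M : ℝ) ^ 2 := by
      rw [Finset.sum_const, Nat.card_Icc, nsmul_eq_mul, Nat.add_sub_cancel]
      ring

theorem main (μ : ℕ → Measure ℝ) (hμ : Adm μ) : ∀ᵐ x ∂(Measure.infinitePi μ), (∀ p, |x p| ≤ 2) ∧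
    ∀ d : ℕ, ∃ C : ℝ, 0 ≤ C ∧ ∀ (N M : ℕ) (c : Fin (d + 1) → ℝ), 3 ≤ N → M ≤ N →
      ‖T x c M‖ ≤ Real.sqrt M * Real.exp (C * sz N) := by
  have := hμ.prob
  have hb : ∀ᵐ x ∂(Measure.infinitePi μ), ∀ p, |x p| ≤ 2 := by
    rw [ae_all_iff]
    intro p
    have hmp := measurePreserving_eval_infinitePi μ p
    exact hmp.quasiMeasurePreserving.ae (hμ.bdd p)
  have hd : ∀ᵐ x ∂(Measure.infinitePi μ), ∀ d : ℕ, ∃ C' : ℝ, 0 ≤ C' ∧ ∀ᶠ Q : ℕ in atTop,
      ∀ i ∈ (range (Q + 1)) ×ˢ (Fintype.piFinset fun _ : Fin (d + 1) => range (Q ^ (d + 3))),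
        ‖W x (gw d Q i) Q‖ ≤ Real.exp (C' * sz Q) := by
    rw [ae_all_iff]
    intro d
    obtain ⟨C', hC', h⟩ := bcFam 2 (1 + (d + 3) * (d + 1)) (by norm_num)
    have h1 := h μ hμ (fun _ => ℕ × (Fin (d + 1) → ℕ))
      (fun Q => (range (Q + 1)) ×ˢ (Fintype.piFinset fun _ : Fin (d + 1) => range (Q ^ (d + 3))))
      (fun Q i => gw d Q i) (fun Q i n => norm_gw d Q i n) ?_
    · filter_upwards [h1] with x hx
      exact ⟨C', hC', hx⟩
    · intro Q hQ
      rw [Finset.card_product, Finset.card_range, Fintype.card_piFinset]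
      simp only [Finset.card_range, Finset.prod_const, Finset.card_univ, Fintype.card_fin]
      calc (Q + 1) * (Q ^ (d + 3)) ^ (d + 1) = (Q + 1) * Q ^ ((d + 3) * (d + 1)) := by rw [← pow_mul]
        _ ≤ (2 * Q) * Q ^ ((d + 3) * (d + 1)) := Nat.mul_le_mul_right _ (by omega)
        _ = 2 * Q ^ (1 + (d + 3) * (d + 1)) := by ring
  filter_upwards [hb, hd] with x hx2 hx
  refine ⟨hx2, ?_⟩
  intro d
  obtain ⟨C', hC', hev⟩ := hx d
  obtain ⟨Q₀, hQ₀⟩ := eventually_atTop.1 hev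
  set K : ℝ := 1 + 2 * Real.pi * (d + 1) with hK
  have hK1 : 1 ≤ K := by
    have : 0 ≤ 2 * Real.pi * ((d : ℝ) + 1) := by positivity
    linarith
  set K0 : ℝ := (Q₀ : ℝ) ^ 2 + 1 with hK0
  have hK01 : 1 ≤ K0 := by nlinarith [sq_nonneg (Q₀ : ℝ)]
  have hs3 := sz3_pos
  have hl1 : 0 ≤ Real.log K / sz 3 := div_nonneg (Real.log_nonneg hK1) hs3.le
  have hl2 : 0 ≤ Real.log K0 / sz 3 := div_nonneg (Real.log_nonneg hK01) hs3.le
  refine ⟨C' + Real.log K / sz 3 + Real.log K0 / sz 3, by positivity, ?_⟩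
  intro N M c hN hMN
  have hN3 : (3 : ℝ) ≤ N := by exact_mod_cast hN
  have hszN : 0 ≤ sz N := Real.sqrt_nonneg _
  rcases Nat.eq_zero_or_pos M with hM0 | hM1
  · subst hM0
    simp [T]
  have hM1' : (1 : ℝ) ≤ M := by exact_mod_cast hM1
  have hsM : 1 ≤ Real.sqrt M := by rw [Real.one_le_sqrt]; exact hM1'
  rcases lt_or_ge N Q₀ with hlt | hge
  · have h1 := T_triv x hx2 c M
    have h2 : (M : ℝ) ≤ Q₀ := by exact_mod_cast (hMN.trans hlt.le)
    calc ‖T x c M‖ ≤ (M : ℝ) ^ 2 := h1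
      _ ≤ (Q₀ : ℝ) ^ 2 := by gcongr
      _ ≤ K0 := by rw [hK0]; linarith
      _ ≤ Real.exp (Real.log K0 / sz 3 * sz N) := absorb hK01 hN3
      _ ≤ Real.exp ((C' + Real.log K / sz 3 + Real.log K0 / sz 3) * sz N) := by
        apply Real.exp_le_exp.2
        apply mul_le_mul_of_nonneg_right _ hszN
        linarith
      _ ≤ Real.sqrt M * Real.exp ((C' + Real.log K / sz 3 + Real.log K0 / sz 3) * sz N) := by
        have := Real.exp_pos ((C' + Real.log K / sz 3 + Real.log K0 / sz 3) * sz N)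
        nlinarith
  · obtain ⟨c', hc', hT⟩ := net x hx2 d N M (by omega) hMN c
    have h1 := hQ₀ N hge (M, c') (by
      rw [Finset.mem_product]
      exact ⟨Finset.mem_range.2 (by omega), Fintype.mem_piFinset.2 hc'⟩)
    rw [W_gw x d N (M, c') hMN, norm_mul] at h1
    simp only at h1
    have hsM0 : 0 < Real.sqrt M := by linarith
    have h2 : ‖T x (fun j => (c' j : ℝ) / (N : ℝ) ^ (d + 3)) M‖ ≤ Real.sqrt M * Real.exp (C' * sz N) := by
      rw [Complex.norm_real, Real.norm_eq_abs, abs_of_pos (by positivity), one_div,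
        inv_mul_le_iff₀ hsM0] at h1
      exact h1
    have hE : 1 ≤ Real.exp (C' * sz N) := Real.one_le_exp (by positivity)
    calc ‖T x c M‖ ≤ Real.sqrt M * Real.exp (C' * sz N) + 2 * Real.pi * (d + 1) := by linarith
      _ ≤ Real.sqrt M * (Real.exp (C' * sz N) * K) := by
        have h3 : 0 ≤ 2 * Real.pi * ((d : ℝ) + 1) := by positivity
        have h4 : 2 * Real.pi * ((d : ℝ) + 1) ≤
            Real.sqrt M * Real.exp (C' * sz N) * (2 * Real.pi * ((d : ℝ) + 1)) := by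
          have h5 : 1 ≤ Real.sqrt M * Real.exp (C' * sz N) := by nlinarith
          nlinarith
        rw [hK]
        nlinarith
      _ ≤ Real.sqrt M * (Real.exp (C' * sz N) * Real.exp (Real.log K / sz 3 * sz N)) := by
        have := absorb hK1 hN3
        gcongr
      _ = Real.sqrt M * Real.exp ((C' + Real.log K / sz 3) * sz N) := by
        rw [← Real.exp_add]
        congr 2
        ring
      _ ≤ Real.sqrt M * Real.exp ((C' + Real.log K / sz 3 + Real.log K0 / sz 3) * sz N) := by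
        apply mul_le_mul_of_nonneg_left _ (Real.sqrt_nonneg _)
        apply Real.exp_le_exp.2
        apply mul_le_mul_of_nonneg_right _ hszN
        linarith

end Pool.Agent.T2H53.RP
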