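import Pool.Agent.T2H53.RP.Base

set_option autoImplicit false

open MeasureTheory Filter Topology Finset

namespace Pool.Agent.T2H53.RP

open Pool.Agent.T2H95.LR

/-- the random multiplicative function (used at squarefree numbers only) -/
noncomputable def rm (x : ℕ → ℝ) (n : ℕ) : ℝ := ∏ p ∈ n.primeFactors, x p

/-- the phase `e(c_0 + c_1 n + ... + c_d n^d)` -/
noncomputable def ph {d : ℕ} (c : Fin (d + 1) → ℝ) (n : ℕ) : ℂ :=
  Complex.exp (((2 * Real.pi * ∑ j : Fin (d + 1), c j * (n : ℝ) ^ (j : ℕ) : ℝ) : ℂ) * Complex.I)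

/-- the twisted sum -/
noncomputable def T (x : ℕ → ℝ) {d : ℕ} (c : Fin (d + 1) → ℝ) (M : ℕ) : ℂ :=
  ∑ n ∈ Icc 1 M, (ArithmeticFunction.moebius n : ℂ) * (rm x n : ℂ) * ph c n

theorem norm_ph {d : ℕ} (c : Fin (d + 1) → ℝ) (n : ℕ) : ‖ph c n‖ = 1 := by
  unfold ph
  exact Complex.norm_exp_ofReal_mul_I _

theorem norm_mu (n : ℕ) : ‖(ArithmeticFunction.moebius n : ℂ)‖ ≤ 1 := by
  rw [Complex.norm_intCast]
  have := ArithmeticFunction.abs_moebius_le_one (n := n)
  exact_mod_cast this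

theorem lam_sqf (x : ℕ → ℝ) {n : ℕ} (hn : Squarefree n) : lam x n = rm x n := by
  unfold lam rm
  apply Finset.prod_congr rfl
  intro p hp
  have h1 : n.factorization p = 1 := by
    have h2 := hn.natFactorization_le_one p
    have h3 : 0 < n.factorization p := by
      rw [Nat.mem_primeFactors] at hp
      exact hp.1.factorization_pos_of_dvd hp.2.2 hp.2.1
    omega
  rw [h1]
  rfl

theorem mu_lam (x : ℕ → ℝ) (n : ℕ) :
    (ArithmeticFunction.moebius n : ℂ) * (lam x n : ℂ) = (ArithmeticFunction.moebius n : ℂ) * (rm x n : ℂ) := by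
  by_cases h : Squarefree n
  · rw [lam_sqf x h]
  · rw [ArithmeticFunction.moebius_eq_zero_of_not_squarefree h]
    simp

theorem LAM : S_LAM := pLAM pHE

theorem mu_rm_le (x : ℕ → ℝ) (hx : ∀ p, |x p| ≤ 2) {n : ℕ} (hn : 1 ≤ n) :
    ‖(ArithmeticFunction.moebius n : ℂ) * (rm x n : ℂ)‖ ≤ n := by
  rw [← mu_lam, norm_mul, Complex.norm_real, Real.norm_eq_abs]
  have h1 := norm_mu n
  have h2 : |lam x n| ≤ n := (LAM.1 x n hx hn).trans (by exact_mod_cast Nat.card_divisors_le_self n)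
  calc _ ≤ 1 * (n : ℝ) := mul_le_mul h1 h2 (abs_nonneg _) zero_le_one
    _ = n := one_mul _

/-- the weight -/
noncomputable def gw (d Q : ℕ) (i : ℕ × (Fin (d + 1) → ℕ)) (n : ℕ) : ℂ :=
  if n ∈ Icc 1 i.1 then
    ((Real.sqrt n / Real.sqrt i.1 : ℝ) : ℂ) * ((ArithmeticFunction.moebius n : ℂ) *
      ph (fun j => (i.2 j : ℝ) / (Q : ℝ) ^ (d + 3)) n) else 0

theorem norm_gw (d Q : ℕ) (i : ℕ × (Fin (d + 1) → ℕ)) (n : ℕ) : ‖gw d Q i n‖ ≤ 1 := by
  unfold gw
  split_ifs with h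
  · rw [mem_Icc] at h
    rw [norm_mul, norm_mul, norm_ph, mul_one, Complex.norm_real, Real.norm_eq_abs, abs_of_nonneg (by positivity)]
    have h1 : Real.sqrt n / Real.sqrt i.1 ≤ 1 := by
      apply div_le_one_of_le₀ _ (Real.sqrt_nonneg _)
      apply Real.sqrt_le_sqrt
      exact_mod_cast h.2
    calc _ ≤ (1 : ℝ) * 1 := mul_le_mul h1 (norm_mu n) (norm_nonneg _) zero_le_one
      _ = 1 := one_mul _
  · simp

theorem W_gw (x : ℕ → ℝ) (d Q : ℕ) (i : ℕ × (Fin (d + 1) → ℕ)) (hi : i.1 ≤ Q) :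
    W x (gw d Q i) Q = ((1 / Real.sqrt i.1 : ℝ) : ℂ) * T x (fun j => (i.2 j : ℝ) / (Q : ℝ) ^ (d + 3)) i.1 := by
  unfold W T
  rw [Finset.mul_sum]
  have hsub : Icc 1 i.1 ⊆ Icc 1 Q := Finset.Icc_subset_Icc_right hi
  rw [← Finset.sum_subset hsub]
  · apply Finset.sum_congr rfl
    intro n hn
    unfold gw
    rw [if_pos hn, ← mu_lam]
    have hn1 : 1 ≤ n := (mem_Icc.1 hn).1
    have hs : ((Real.sqrt n : ℝ) : ℂ) ≠ 0 := by
      have : 0 < Real.sqrt n := Real.sqrt_pos.2 (by exact_mod_cast hn1)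
      exact_mod_cast this.ne'
    push_cast
    field_simp
  · intro n _ hn
    unfold gw
    rw [if_neg hn]
    simp

/-- changing the coefficients by integers -/
theorem ph_fract {d : ℕ} (c : Fin (d + 1) → ℝ) (n : ℕ) : ph (fun j => Int.fract (c j)) n = ph c n := by
  unfold ph
  have h1 : (∑ j : Fin (d + 1), c j * (n : ℝ) ^ (j : ℕ)) =
      (∑ j : Fin (d + 1), Int.fract (c j) * (n : ℝ) ^ (j : ℕ)) +
        ((∑ j : Fin (d + 1), ⌊c j⌋ * (n : ℤ) ^ (j : ℕ) : ℤ) : ℝ) := by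
    push_cast
    rw [← Finset.sum_add_distrib]
    apply Finset.sum_congr rfl
    intro j _
    have := Int.fract_add_floor (c j)
    rw [← add_mul, this]
  rw [h1]
  generalize (∑ j : Fin (d + 1), ⌊c j⌋ * (n : ℤ) ^ (j : ℕ) : ℤ) = m
  generalize (∑ j : Fin (d + 1), Int.fract (c j) * (n : ℝ) ^ (j : ℕ)) = y
  rw [Complex.exp_eq_exp_iff_exists_int]
  refine ⟨-m, ?_⟩
  push_cast
  ring

theorem ph_sub {d : ℕ} (a b : Fin (d + 1) → ℝ) (n : ℕ) :
    ‖ph a n - ph b n‖ ≤ 2 * Real.pi * ∑ j : Fin (d + 1), |a j - b j| * (n : ℝ) ^ (j : ℕ) := by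
  unfold ph
  set u := 2 * Real.pi * ∑ j : Fin (d + 1), a j * (n : ℝ) ^ (j : ℕ) with hu
  set v := 2 * Real.pi * ∑ j : Fin (d + 1), b j * (n : ℝ) ^ (j : ℕ) with hv
  have h1 : Complex.exp ((u : ℂ) * Complex.I) - Complex.exp ((v : ℂ) * Complex.I) =
      Complex.exp (Complex.I * (v : ℝ)) * (Complex.exp (Complex.I * ((u - v : ℝ) : ℂ)) - 1) := by
    rw [mul_sub, mul_one, ← Complex.exp_add]
    push_cast
    ring_nf
  rw [h1, norm_mul, Complex.norm_exp_I_mul_ofReal, one_mul]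
  refine (Real.norm_exp_I_mul_ofReal_sub_one_le).trans ?_
  rw [Real.norm_eq_abs, hu, hv, ← mul_sub, ← Finset.sum_sub_distrib, abs_mul,
    abs_of_nonneg (by positivity : (0 : ℝ) ≤ 2 * Real.pi)]
  apply mul_le_mul_of_nonneg_left _ (by positivity)
  refine (Finset.abs_sum_le_sum_abs _ _).trans ?_
  apply Finset.sum_le_sum
  intro j _
  rw [← sub_mul, abs_mul, abs_of_nonneg (by positivity : (0 : ℝ) ≤ (n : ℝ) ^ (j : ℕ))]

/-- approximation by the net -/
theorem net (x : ℕ → ℝ) (hx : ∀ p, |x p| ≤ 2) (d Q M : ℕ) (hQ : 1 ≤ Q) (hM : M ≤ Q) (c : Fin (d + 1) → ℝ) :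
    ∃ c' : Fin (d + 1) → ℕ, (∀ j, c' j ∈ range (Q ^ (d + 3))) ∧
      ‖T x c M‖ ≤ ‖T x (fun j => (c' j : ℝ) / (Q : ℝ) ^ (d + 3)) M‖ + 2 * Real.pi * (d + 1) := by
  have hQ0 : (0 : ℝ) < Q := by exact_mod_cast hQ
  have hQ1 : (1 : ℝ) ≤ Q := by exact_mod_cast hQ
  refine ⟨fun j => ⌊Int.fract (c j) * (Q : ℝ) ^ (d + 3)⌋₊, ?_, ?_⟩
  · intro j
    rw [mem_range, Nat.floor_lt (by have := Int.fract_nonneg (c j); positivity)]
    push_cast
    have := Int.fract_lt_one (c j)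
    have h2 : (0 : ℝ) < (Q : ℝ) ^ (d + 3) := by positivity
    nlinarith
  · set b : Fin (d + 1) → ℝ := fun j => ((⌊Int.fract (c j) * (Q : ℝ) ^ (d + 3)⌋₊ : ℕ) : ℝ) / (Q : ℝ) ^ (d + 3) with hb
    have hcb : ∀ j, |Int.fract (c j) - b j| ≤ 1 / (Q : ℝ) ^ (d + 3) := by
      intro j
      have h2 : (0 : ℝ) < (Q : ℝ) ^ (d + 3) := by positivity
      have h3 := Nat.floor_le (a := Int.fract (c j) * (Q : ℝ) ^ (d + 3))
        (by have := Int.fract_nonneg (c j); positivity)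
      have h4 := (Nat.lt_floor_add_one (Int.fract (c j) * (Q : ℝ) ^ (d + 3))).le
      have h5 : Int.fract (c j) - b j = (Int.fract (c j) * (Q : ℝ) ^ (d + 3) -
          (⌊Int.fract (c j) * (Q : ℝ) ^ (d + 3)⌋₊ : ℕ)) / (Q : ℝ) ^ (d + 3) := by
        rw [hb]
        field_simp
      rw [h5, abs_div, abs_of_pos h2]
      apply div_le_div_of_nonneg_right _ h2.le
      rw [abs_le]
      constructor <;> linarith
    have h1 : ‖T x c M - T x b M‖ ≤ 2 * Real.pi * (d + 1) := by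
      unfold T
      rw [← Finset.sum_sub_distrib]
      calc ‖∑ n ∈ Icc 1 M, ((ArithmeticFunction.moebius n : ℂ) * (rm x n : ℂ) * ph c n -
            (ArithmeticFunction.moebius n : ℂ) * (rm x n : ℂ) * ph b n)‖
          ≤ ∑ n ∈ Icc 1 M, ‖(ArithmeticFunction.moebius n : ℂ) * (rm x n : ℂ) * ph c n -
            (ArithmeticFunction.moebius n : ℂ) * (rm x n : ℂ) * ph b n‖ := norm_sum_le _ _
        _ ≤ ∑ n ∈ Icc 1 M, (Q : ℝ) * (2 * Real.pi * ((d + 1) * (1 / (Q : ℝ) ^ 3))) := by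
          apply Finset.sum_le_sum
          intro n hn
          rw [mem_Icc] at hn
          have hnQ : (n : ℝ) ≤ Q := by exact_mod_cast hn.2.trans hM
          rw [← mul_sub, norm_mul]
          apply mul_le_mul ((mu_rm_le x hx hn.1).trans hnQ) _ (norm_nonneg _) (by positivity)
          rw [← ph_fract c]
          refine (ph_sub _ _ n).trans ?_
          apply mul_le_mul_of_nonneg_left _ (by positivity)
          calc ∑ j : Fin (d + 1), |Int.fract (c j) - b j| * (n : ℝ) ^ (j : ℕ)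
              ≤ ∑ _j : Fin (d + 1), (1 / (Q : ℝ) ^ 3) := by
                apply Finset.sum_le_sum
                intro j _
                have h6 : (n : ℝ) ^ (j : ℕ) ≤ (Q : ℝ) ^ d := by
                  calc (n : ℝ) ^ (j : ℕ) ≤ (Q : ℝ) ^ (j : ℕ) := by gcongr
                    _ ≤ (Q : ℝ) ^ d := pow_le_pow_right₀ hQ1 (by have := j.2; omega)
                calc |Int.fract (c j) - b j| * (n : ℝ) ^ (j : ℕ) ≤ (1 / (Q : ℝ) ^ (d + 3)) * (Q : ℝ) ^ d :=
                      mul_le_mul (hcb j) h6 (by positivity) (by positivity)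
                  _ = 1 / (Q : ℝ) ^ 3 := by
                      rw [pow_add]
                      field_simp
            _ = (d + 1) * (1 / (Q : ℝ) ^ 3) := by
                rw [Finset.sum_const, Finset.card_univ, Fintype.card_fin, nsmul_eq_mul]
                push_cast
                ring
        _ = M * ((Q : ℝ) * (2 * Real.pi * ((d + 1) * (1 / (Q : ℝ) ^ 3)))) := by
          rw [Finset.sum_const, Nat.card_Icc, nsmul_eq_mul, Nat.add_sub_cancel]
        _ ≤ Q * ((Q : ℝ) * (2 * Real.pi * ((d + 1) * (1 / (Q : ℝ) ^ 3)))) := by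
          have : (M : ℝ) ≤ Q := by exact_mod_cast hM
          gcongr
        _ = (2 * Real.pi * (d + 1)) * (1 / (Q : ℝ)) := by
          field_simp
        _ ≤ (2 * Real.pi * (d + 1)) * 1 := by
          apply mul_le_mul_of_nonneg_left _ (by positivity)
          rw [div_le_one hQ0]
          exact hQ1
        _ = 2 * Real.pi * (d + 1) := mul_one _
    calc ‖T x c M‖ = ‖T x b M + (T x c M - T x b M)‖ := by rw [add_sub_cancel]
      _ ≤ ‖T x b M‖ + ‖T x c M - T x b M‖ := norm_add_le _ _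
      _ ≤ _ := by linarith

end Pool.Agent.T2H53.RP
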