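import Pool.Agent.T2H53.RP.Main
import Pool.Agent.T2H53.RP.Conv

set_option autoImplicit false

open MeasureTheory Filter Topology Finset

namespace Pool.Agent.T2H53.RP

open Pool.Agent.T2H95.LR

theorem euler (u : ℕ → ℝ) (hu0 : ∀ n, 0 ≤ u n) (hu1 : u 1 = 1)
    (hmul : ∀ {m n : ℕ}, m.Coprime n → u (m * n) = u m * u n) (e : ℕ → ℝ)
    (hs : ∀ {p : ℕ}, p.Prime → Summable (fun k => ‖u (p ^ k)‖))
    (he : ∀ p : ℕ, p.Prime → ∑' k, u (p ^ k) ≤ Real.exp (e p)) (N : ℕ) :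
    ∑ a ∈ Icc 1 N, u a ≤ Real.exp (∑ p ∈ (N + 1).primesBelow, e p) := by
  classical
  obtain ⟨_, hh⟩ := EulerProduct.summable_and_hasSum_smoothNumbers_prod_primesBelow_tsum hu1 hmul hs (N + 1)
  have h1 : ∑ a ∈ Icc 1 N, u a = ∑ a ∈ (Icc 1 N).subtype (· ∈ (N + 1).smoothNumbers), u a := by
    rw [Finset.sum_subtype_of_mem]
    intro a ha
    rw [mem_Icc] at ha
    exact Nat.mem_smoothNumbers_of_lt ha.1 (by omega)
  rw [h1]
  refine (sum_le_hasSum _ (fun i _ => hu0 _) hh).trans ?_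
  rw [Real.exp_sum]
  apply Finset.prod_le_prod
  · intro p _
    exact tsum_nonneg fun k => hu0 _
  · intro p hp
    exact he p (Nat.prime_of_mem_primesBelow hp)

/-- the weight in the Euler product -/
noncomputable def uu (y z : ℕ → ℂ) (a : ℕ) : ℝ := ‖qh y z a‖ / Real.sqrt a

theorem uu_pp (y z : ℕ → ℂ) (hy : ∀ p, ‖y p‖ ≤ 1) {p : ℕ} (hp : p.Prime) (k : ℕ) :
    uu y z (p ^ (k + 1)) ≤ ‖y p - z p‖ * (1 / Real.sqrt p) * (1 / Real.sqrt p) ^ k := by
  unfold uu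
  rw [qh_pp y z hp (by omega), norm_mul, norm_pow]
  have hp0 : 0 < Real.sqrt p := Real.sqrt_pos.2 (by exact_mod_cast hp.pos)
  have h1 : Real.sqrt ((p ^ (k + 1) : ℕ) : ℝ) = Real.sqrt p ^ (k + 1) := by
    rw [Nat.cast_pow, Real.sqrt_eq_rpow, Real.sqrt_eq_rpow, ← Real.rpow_natCast, ← Real.rpow_natCast,
      ← Real.rpow_mul (by positivity), ← Real.rpow_mul (by positivity), mul_comm]
  rw [h1]
  have h2 : ‖y p‖ ^ (k + 1 - 1) ≤ 1 := pow_le_one₀ (norm_nonneg _) (hy p)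
  calc ‖y p - z p‖ * ‖y p‖ ^ (k + 1 - 1) / Real.sqrt p ^ (k + 1)
      ≤ ‖y p - z p‖ * 1 / Real.sqrt p ^ (k + 1) := by gcongr
    _ = ‖y p - z p‖ * (1 / Real.sqrt p) * (1 / Real.sqrt p) ^ k := by
      rw [div_pow, pow_succ]
      field_simp
      simp

theorem sqrt_ge {p : ℕ} (hp : p.Prime) : 4 / 3 ≤ Real.sqrt p := by
  apply Real.le_sqrt_of_sq_le
  have : (2 : ℝ) ≤ p := by exact_mod_cast hp.two_le
  nlinarith

theorem uu_sum (y z : ℕ → ℂ) (hy : ∀ p, ‖y p‖ ≤ 1) (N : ℕ) :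
    ∑ a ∈ Icc 1 N, uu y z a ≤
      Real.exp (∑ p ∈ (N + 1).primesBelow, 4 * (‖y p - z p‖ / Real.sqrt p)) := by
  have hu0 : ∀ n, 0 ≤ uu y z n := fun n => by unfold uu; positivity
  have hr : ∀ {p : ℕ}, p.Prime → (0 : ℝ) ≤ 1 / Real.sqrt p ∧ 1 / Real.sqrt p < 1 := by
    intro p hp
    have := sqrt_ge hp
    refine ⟨by positivity, ?_⟩
    rw [div_lt_one (by linarith)]
    linarith
  have hs1 : ∀ {p : ℕ}, p.Prime → Summable (fun k => uu y z (p ^ (k + 1))) := by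
    intro p hp
    obtain ⟨h1, h2⟩ := hr hp
    exact Summable.of_nonneg_of_le (fun k => hu0 _) (fun k => uu_pp y z hy hp k)
      ((summable_geometric_of_lt_one h1 h2).mul_left _)
  have hs0 : ∀ {p : ℕ}, p.Prime → Summable (fun k => uu y z (p ^ k)) := by
    intro p hp
    exact (summable_nat_add_iff 1).1 (hs1 hp)
  apply euler (uu y z) hu0
  · unfold uu
    rw [qh_one]
    simp
  · intro m n hmn
    unfold uu
    rw [(qh_mult y z).map_mul_of_coprime hmn, norm_mul, Nat.cast_mul, Real.sqrt_mul (by positivity)]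
    rw [mul_div_mul_comm]
  · intro p hp
    simpa only [Real.norm_eq_abs, abs_of_nonneg (hu0 _)] using hs0 hp
  · intro p hp
    obtain ⟨h1, h2⟩ := hr hp
    have hsq := sqrt_ge hp
    rw [(hs0 hp).tsum_eq_zero_add]
    have h3 : uu y z (p ^ 0) = 1 := by
      unfold uu
      rw [pow_zero, qh_one]
      simp
    rw [h3]
    have h4 : ∑' k, uu y z (p ^ (k + 1)) ≤ 4 * (‖y p - z p‖ / Real.sqrt p) := by
      calc ∑' k, uu y z (p ^ (k + 1)) ≤ ∑' k : ℕ, ‖y p - z p‖ * (1 / Real.sqrt p) * (1 / Real.sqrt p) ^ k :=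
            (hs1 hp).tsum_le_tsum (fun k => uu_pp y z hy hp k) ((summable_geometric_of_lt_one h1 h2).mul_left _)
        _ = ‖y p - z p‖ * (1 / Real.sqrt p) * (1 - 1 / Real.sqrt p)⁻¹ := by
            rw [tsum_mul_left, tsum_geometric_of_lt_one h1 h2]
        _ ≤ ‖y p - z p‖ * (1 / Real.sqrt p) * 4 := by
            apply mul_le_mul_of_nonneg_left _ (by positivity)
            rw [inv_le_comm₀ (by linarith) (by norm_num)]
            have : 1 / Real.sqrt p ≤ 3 / 4 := by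
              rw [div_le_iff₀ (by linarith)]
              linarith
            linarith
        _ = 4 * (‖y p - z p‖ / Real.sqrt p) := by ring
    have h5 := Real.add_one_le_exp (4 * (‖y p - z p‖ / Real.sqrt p))
    linarith

theorem ph_mul {d : ℕ} (c : Fin (d + 1) → ℝ) (m a : ℕ) :
    ph c (m * a) = ph (fun j => c j * (a : ℝ) ^ (j : ℕ)) m := by
  unfold ph
  congr 4
  apply Finset.sum_congr rfl
  intro j _
  push_cast
  rw [mul_pow]
  ring

/-- The twisted sum for arbitrary values at the primes. -/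
noncomputable def TF (f : ℕ → ℂ) (w : ℕ → ℂ) (N : ℕ) : ℂ :=
  ∑ n ∈ Icc 1 N, (ArithmeticFunction.moebius n : ℂ) * (∏ p ∈ n.primeFactors, f p) * w n

theorem TF_le (x : ℕ → ℝ) (hx : ∀ p, |x p| ≤ 1) (f : ℕ → ℂ) {d : ℕ} (c : Fin (d + 1) → ℝ) (N : ℕ) (B : ℝ)
    (hB : 0 ≤ B)
    (h : ∀ (M : ℕ) (c : Fin (d + 1) → ℝ), M ≤ N → ‖T x c M‖ ≤ Real.sqrt M * B) :
    ‖TF f (ph c) N‖ ≤ Real.sqrt N * B *
      Real.exp (∑ p ∈ (N + 1).primesBelow, 4 * (‖(x p : ℂ) - f p‖ / Real.sqrt p)) := by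
  have h1 : TF f (ph c) N = ∑ n ∈ Icc 1 N, (am (fun p => (x p : ℂ)) * qh (fun p => (x p : ℂ)) f) n * ph c n := by
    rw [← conv]
    unfold TF
    apply Finset.sum_congr rfl
    intro n hn
    rw [mem_Icc] at hn
    rw [am_apply _ _ (by omega)]
  rw [h1, rearr]
  have h2 : ∀ a ∈ Icc 1 N, ‖qh (fun p => (x p : ℂ)) f a *
      ∑ m ∈ Icc 1 (N / a), am (fun p => (x p : ℂ)) m * ph c (m * a)‖ ≤
      Real.sqrt N * B * uu (fun p => (x p : ℂ)) f a := by
    intro a ha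
    rw [mem_Icc] at ha
    have h3 : ∑ m ∈ Icc 1 (N / a), am (fun p => (x p : ℂ)) m * ph c (m * a) =
        T x (fun j => c j * (a : ℝ) ^ (j : ℕ)) (N / a) := by
      unfold T
      apply Finset.sum_congr rfl
      intro m hm
      rw [mem_Icc] at hm
      rw [am_apply _ _ (by omega), ph_mul]
      unfold rm
      push_cast
      rfl
    rw [h3, norm_mul]
    have h4 := h (N / a) (fun j => c j * (a : ℝ) ^ (j : ℕ)) (Nat.div_le_self _ _)
    have ha0 : (0 : ℝ) < a := by exact_mod_cast ha.1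
    have h5 : Real.sqrt ((N / a : ℕ) : ℝ) ≤ Real.sqrt N / Real.sqrt a := by
      rw [← Real.sqrt_div (by positivity)]
      apply Real.sqrt_le_sqrt
      exact Nat.cast_div_le
    unfold uu
    calc ‖qh (fun p => (x p : ℂ)) f a‖ * ‖T x (fun j => c j * (a : ℝ) ^ (j : ℕ)) (N / a)‖
        ≤ ‖qh (fun p => (x p : ℂ)) f a‖ * (Real.sqrt N / Real.sqrt a * B) := by
          apply mul_le_mul_of_nonneg_left _ (norm_nonneg _)
          refine h4.trans ?_
          gcongr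
      _ = Real.sqrt N * B * (‖qh (fun p => (x p : ℂ)) f a‖ / Real.sqrt a) := by ring
  refine (norm_sum_le _ _).trans ((Finset.sum_le_sum h2).trans ?_)
  rw [← Finset.mul_sum]
  apply mul_le_mul_of_nonneg_left _ (by positivity)
  apply uu_sum
  intro p
  rw [Complex.norm_real, Real.norm_eq_abs]
  exact hx p

end Pool.Agent.T2H53.RP
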